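import Mathlib

/-!
Definitions for `MP_98cfca_co`.
-/

namespace EvenGraphs

open Classical in
/-- The polynomial `W_α(x)`: the sum of `x ^ |E(G)|` over all even graphs `G` on `p` labelled
vertices with `α(G) = G`. -/
noncomputable def W {p : ℕ} (α : Equiv.Perm (Fin p)) (x : ℝ) : ℝ :=
  ∑ G ∈ (Finset.univ : Finset (SimpleGraph (Fin p))).filter
    (fun G => (∀ v, Even (G.degree v)) ∧ ∀ u v, G.Adj (α u) (α v) ↔ G.Adj u v),
    x ^ G.edgeFinset.card

end EvenGraphs
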