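import Pool.Agent.Helper54.EvenNoGo

open Finset Polynomial

namespace EvenGraphs

/-- Linear algebra: polynomials `A_j` of degree `≤ E`, not all zero, with
`∑_j A_j D^(B-j) P_{ij} = 0` for all `i`. -/
lemma exists_operator {B δ E : ℕ} (hE : E = B ^ 2 * δ) (R : Fin B → ℕ → ℝ[X])
    (hR : ∀ i j, j ≤ B → (R i j).natDegree ≤ B * δ) :
    ∃ A : ℕ → ℝ[X], (∀ j, (A j).natDegree ≤ E) ∧ (∃ j ≤ B, A j ≠ 0) ∧
      ∀ i, ∑ j ∈ range (B + 1), A j * R i j = 0 := by
  classical
  let toPoly : (Fin (E + 1) → ℝ) → ℝ[X] := fun α => ∑ t : Fin (E + 1), C (α t) * X ^ (t : ℕ)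
  let M := E + B * δ + 1
  let Φ : (Fin (B + 1) → Fin (E + 1) → ℝ) →ₗ[ℝ] (Fin B → Fin M → ℝ) :=
    { toFun := fun α i e => (∑ j : Fin (B + 1), toPoly (α j) * R i j).coeff e
      map_add' := by
        intro α β
        funext i e
        simp only [toPoly, Pi.add_apply, map_add, add_mul, Finset.sum_add_distrib, coeff_add]
      map_smul' := by
        intro c α
        funext i e
        simp only [toPoly, Pi.smul_apply, smul_eq_mul, map_mul, RingHom.id_apply]
        have : ∀ j : Fin (B + 1), (∑ t : Fin (E + 1), C c * C (α j t) * X ^ (t : ℕ)) * R i j =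
            C c * ((∑ t : Fin (E + 1), C (α j t) * X ^ (t : ℕ)) * R i j) := by
          intro j
          rw [← mul_assoc, Finset.mul_sum]
          congr 1
          apply Finset.sum_congr rfl
          intro t _; ring
        rw [Finset.sum_congr rfl fun j _ => this j, ← Finset.mul_sum, coeff_C_mul] }
  have hdim : Module.finrank ℝ (Fin B → Fin M → ℝ) <
      Module.finrank ℝ (Fin (B + 1) → Fin (E + 1) → ℝ) := by
    simp only [Module.finrank_pi_fintype, Module.finrank_self, Fintype.card_fin, Finset.sum_const,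
      Finset.card_univ, smul_eq_mul, mul_one]
    simp only [M]
    rw [hE]
    nlinarith
  have hker := LinearMap.ker_ne_bot_of_finrank_lt (f := Φ) hdim
  obtain ⟨α, hα, hα0⟩ := (Submodule.ne_bot_iff _).1 hker
  rw [LinearMap.mem_ker] at hα
  have hdeg : ∀ β : Fin (E + 1) → ℝ, (toPoly β).natDegree ≤ E := by
    intro β
    apply natDegree_sum_le_of_forall_le
    intro t _
    refine (natDegree_C_mul_X_pow_le _ _).trans ?_
    have := t.2; omega
  have hcoeff : ∀ β : Fin (E + 1) → ℝ, ∀ t : Fin (E + 1), (toPoly β).coeff t = β t := by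
    intro β t
    simp only [toPoly, finsetSum_coeff, coeff_C_mul, coeff_X_pow]
    rw [Finset.sum_eq_single t]
    · simp
    · intro u _ hut
      have : (t : ℕ) ≠ u := fun h => hut (Fin.ext h.symm)
      simp [this]
    · intro h; exact absurd (Finset.mem_univ t) h
  refine ⟨fun j => if h : j < B + 1 then toPoly (α ⟨j, h⟩) else 0, ?_, ?_, ?_⟩
  · intro j
    dsimp only
    split_ifs
    · exact hdeg _
    · simp
  · by_contra hcon
    push Not at hcon
    apply hα0
    funext j t
    have h1 := hcon j (by have := j.2; omega)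
    simp only [j.2, dite_true] at h1
    have h2 := hcoeff (α j) t
    rw [h1] at h2
    simpa using h2.symm
  · intro i
    have h1 : ∑ j ∈ range (B + 1), (if h : j < B + 1 then toPoly (α ⟨j, h⟩) else 0) * R i j =
        ∑ j : Fin (B + 1), toPoly (α j) * R i j := by
      rw [Finset.sum_range]
      apply Finset.sum_congr rfl
      intro j _
      simp [j.2]
    rw [h1]
    ext e
    rw [coeff_zero]
    by_cases he : e < M
    · have := congrFun (congrFun hα i) ⟨e, he⟩
      exact this
    · apply coeff_eq_zero_of_natDegree_lt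
      have : (∑ j : Fin (B + 1), toPoly (α j) * R i j).natDegree ≤ E + B * δ := by
        apply natDegree_sum_le_of_forall_le
        intro j _
        refine natDegree_mul_le.trans ?_
        have h3 := hdeg (α j)
        have h4 := hR i j (by have := j.2; omega)
        omega
      omega

/-- the lacunary polynomial `∑ C(p,k) X^{k(p-k)}` -/
noncomputable def LL (p : ℕ) : ℝ[X] :=
  ∑ k ∈ range (p + 1), C (p.choose k : ℝ) * X ^ (k * (p - k))

lemma Th_iter_LL (p j : ℕ) : Th^[j] (LL p) =
    ∑ k ∈ range (p + 1), C ((p.choose k : ℝ) * ((k * (p - k) : ℕ) : ℝ) ^ j) * X ^ (k * (p - k)) := by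
  unfold LL
  rw [Th_iter_sum]
  apply Finset.sum_congr rfl
  intro k _
  rw [Th_iter_monomial]

/-- gaps between the exponents -/
lemma gap {p B E k k₀ : ℕ} (hp : E + 2 * B + 2 ≤ p) (hk₀ : k₀ ≤ B) (hk : k ≤ p)
    (hne : k * (p - k) ≠ k₀ * (p - k₀)) :
    k * (p - k) > k₀ * (p - k₀) + E ∨ k * (p - k) + E < k₀ * (p - k₀) := by
  obtain ⟨m, rfl⟩ : ∃ m, p = k + m := ⟨p - k, by omega⟩
  obtain ⟨m₀, hm₀⟩ : ∃ m₀, k + m = k₀ + m₀ := ⟨k + m - k₀, by omega⟩
  have e1 : k + m - k = m := by omega
  have e2 : k + m - k₀ = m₀ := by omega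
  rw [e1, e2] at hne ⊢
  have hm : m₀ ≥ E + B + 2 := by omega
  rcases lt_trichotomy k k₀ with h | h | h
  · -- k < k₀
    obtain ⟨a, rfl⟩ : ∃ a, k₀ = k + a + 1 := ⟨k₀ - k - 1, by omega⟩
    have hmm : m = m₀ + a + 1 := by omega
    right
    subst hmm
    nlinarith
  · subst h
    have : m = m₀ := by omega
    exact absurd (by rw [this]) hne
  · obtain ⟨a, rfl⟩ : ∃ a, k = k₀ + a + 1 := ⟨k - k₀ - 1, by omega⟩
    have hmm : m₀ = m + a + 1 := by omega
    subst hmm
    rcases lt_trichotomy m k₀ with h2 | h2 | h2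
    · right
      obtain ⟨b, rfl⟩ : ∃ b, k₀ = m + b + 1 := ⟨k₀ - m - 1, by omega⟩
      nlinarith
    · subst h2
      exfalso; apply hne; ring
    · left
      obtain ⟨b, rfl⟩ : ∃ b, m = k₀ + b + 1 := ⟨m - k₀ - 1, by omega⟩
      nlinarith

/-- No nonzero operator of order `≤ B` and degree `≤ E` kills `LL p`. -/
lemma no_operator {p B E : ℕ} (hp : E + 2 * B + 2 ≤ p) (A : ℕ → ℝ[X])
    (hA : ∀ j, (A j).natDegree ≤ E) (h0 : ∑ j ∈ range (B + 1), A j * Th^[j] (LL p) = 0) :
    ∀ j ≤ B, A j = 0 := by
  classical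
  -- `Q n` = the symbol of the operator at `X^n`
  let Q : ℕ → ℝ[X] := fun n => ∑ j ∈ range (B + 1), C ((n : ℝ) ^ j) * A j
  have hQdeg : ∀ n, (Q n).natDegree ≤ E := by
    intro n
    apply natDegree_sum_le_of_forall_le
    intro j _
    exact (natDegree_C_mul_le _ _).trans (hA j)
  have h1 : ∑ k ∈ range (p + 1), C (p.choose k : ℝ) * (X ^ (k * (p - k)) * Q (k * (p - k))) = 0 := by
    rw [← h0]
    simp only [Th_iter_LL, Q, Finset.mul_sum]
    rw [Finset.sum_comm]
    apply Finset.sum_congr rfl
    intro j _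
    apply Finset.sum_congr rfl
    intro k _
    rw [C_mul]; ring
  have h2 : ∀ k₀ ≤ B, Q (k₀ * (p - k₀)) = 0 := by
    intro k₀ hk₀
    ext t
    rw [coeff_zero]
    by_cases ht : t ≤ E
    · have h3 := congrArg (fun f : ℝ[X] => f.coeff (k₀ * (p - k₀) + t)) h1
      simp only [finsetSum_coeff, coeff_C_mul, coeff_zero] at h3
      have h4 : ∀ k ∈ range (p + 1), (p.choose k : ℝ) *
          (X ^ (k * (p - k)) * Q (k * (p - k))).coeff (k₀ * (p - k₀) + t) =
          (if k * (p - k) = k₀ * (p - k₀) then (p.choose k : ℝ) else 0) *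
            (Q (k₀ * (p - k₀))).coeff t := by
        intro k hk
        rw [Finset.mem_range] at hk
        split_ifs with h
        · rw [h, coeff_X_pow_mul', if_pos (by omega)]
          congr 2
          omega
        · rw [zero_mul]
          rcases gap hp hk₀ (by omega : k ≤ p) h with h5 | h5
          · rw [coeff_X_pow_mul', if_neg (by omega), mul_zero]
          · rw [coeff_X_pow_mul', if_pos (by omega),
              coeff_eq_zero_of_natDegree_lt (by have := hQdeg (k * (p - k)); omega), mul_zero]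
      rw [Finset.sum_congr rfl h4, ← Finset.sum_mul] at h3
      have h5 : 0 < ∑ k ∈ range (p + 1),
          (if k * (p - k) = k₀ * (p - k₀) then (p.choose k : ℝ) else 0) := by
        apply Finset.sum_pos'
        · intro k _; split_ifs <;> positivity
        · refine ⟨k₀, Finset.mem_range.2 (by omega), ?_⟩
          rw [if_pos rfl]
          exact_mod_cast Nat.choose_pos (by omega)
      exact (mul_eq_zero.1 h3).resolve_left h5.ne'
    · apply coeff_eq_zero_of_natDegree_lt
      have := hQdeg (k₀ * (p - k₀)); omega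
  -- Vandermonde
  have h3 : ∀ t, ∑ j ∈ range (B + 1), C ((A j).coeff t) * (X : ℝ[X]) ^ j = 0 := by
    intro t
    apply eq_zero_of_natDegree_lt_card_of_eval_eq_zero (f := fun k : Fin (B + 1) =>
      (((k : ℕ) * (p - k) : ℕ) : ℝ))
    · intro k l hkl
      simp only [Nat.cast_inj] at hkl
      by_contra hne
      have hk := k.2
      have hl := l.2
      rcases lt_or_gt_of_ne (fun h => hne (Fin.ext h) : (k : ℕ) ≠ l) with h | h
      · obtain ⟨a, ha⟩ : ∃ a, (l : ℕ) = k + a + 1 := ⟨l - k - 1, by omega⟩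
        obtain ⟨m, hm⟩ : ∃ m, p = l + m := ⟨p - l, by omega⟩
        have e1 : p - l = m := by omega
        have e2 : p - k = m + a + 1 := by omega
        rw [e1, e2, ha] at hkl
        have hmk : m > k := by omega
        nlinarith
      · obtain ⟨a, ha⟩ : ∃ a, (k : ℕ) = l + a + 1 := ⟨k - l - 1, by omega⟩
        obtain ⟨m, hm⟩ : ∃ m, p = k + m := ⟨p - k, by omega⟩
        have e1 : p - k = m := by omega
        have e2 : p - l = m + a + 1 := by omega
        rw [e1, e2, ha] at hkl
        have hmk : m > l := by omega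
        nlinarith
    · intro k
      have h4 := congrArg (fun f : ℝ[X] => f.coeff t) (h2 k (by have := k.2; omega))
      simp only [Q, finsetSum_coeff, coeff_C_mul, coeff_zero] at h4
      rw [eval_finsetSum, ← h4]
      apply Finset.sum_congr rfl
      intro j _
      simp only [eval_mul, eval_C, eval_pow, eval_X]
      ring
    · rw [Fintype.card_fin]
      refine lt_of_le_of_lt (natDegree_sum_le_of_forall_le _ _ ?_) (Nat.lt_succ_self B)
      intro j hj
      rw [Finset.mem_range] at hj
      exact (natDegree_C_mul_X_pow_le _ _).trans (by omega)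
  intro j hj
  ext t
  have h4 := congrArg (fun f : ℝ[X] => f.coeff j) (h3 t)
  simp only [finsetSum_coeff, coeff_C_mul, coeff_X_pow, coeff_zero] at h4
  rw [Finset.sum_eq_single j] at h4
  · simpa using h4
  · intro l _ hlj
    have : j ≠ l := fun h => hlj h.symm
    simp [this]
  · intro h; exact absurd (Finset.mem_range.2 (by omega)) h

/-- abstract no-go statement -/
lemma no_go {p B δ : ℕ} (hp : B ^ 2 * δ + 2 * B + 2 ≤ p) {D : ℝ[X]} (hD0 : D ≠ 0)
    (hD : D.natDegree ≤ δ) {q : Fin B → ℝ[X]} (hq : ∀ i, (q i).natDegree ≤ δ)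
    {v : Fin B → ℝ → ℝ} (hLD : ∀ i, LD D (q i) (v i)) (c : Fin B → ℝ)
    (hL : ∀ s ∈ Set.Ioo (0 : ℝ) 1, (LL p).eval s = ∑ i, c i * v i s) : False := by
  classical
  obtain ⟨A, hA, ⟨j, hj, hj0⟩, hrel⟩ := exists_operator (B := B) (δ := δ) rfl
    (fun i j => D ^ (B - j) * PP D (q i) j) (by
      intro i j hj
      refine natDegree_mul_le.trans ?_
      have h1 : (D ^ (B - j)).natDegree ≤ (B - j) * δ :=
        natDegree_pow_le.trans (Nat.mul_le_mul_left _ hD)
      have h2 := natDegree_PP hD (hq i) j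
      calc _ ≤ (B - j) * δ + j * δ := by omega
        _ = B * δ := by rw [← add_mul]; congr 1; omega)
  apply hj0
  refine no_operator hp A hA ?_ j hj
  -- the polynomial vanishes on (0,1) after multiplication by D^B
  have hz : D ^ B * ∑ j ∈ range (B + 1), A j * Th^[j] (LL p) = 0 := by
    apply Polynomial.eq_zero_of_infinite_isRoot
    apply (Set.Ioo_infinite (zero_lt_one' ℝ)).mono
    intro s hs
    simp only [Set.mem_ofPred_eq, IsRoot]
    rw [eval_mul, eval_pow, eval_finsetSum, Finset.mul_sum]
    have h1 : ∀ j ∈ range (B + 1), D.eval s ^ B * (A j * Th^[j] (LL p)).eval s =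
        ∑ i, c i * v i s * ((A j).eval s * (D.eval s ^ (B - j) * (PP D (q i) j).eval s)) := by
      intro j hj
      rw [Finset.mem_range] at hj
      have h2 := theta_rel hLD hL j s hs
      have h3 : D.eval s ^ B = D.eval s ^ (B - j) * D.eval s ^ j := by
        rw [← pow_add]; congr 1; omega
      rw [eval_mul, h3]
      calc _ = D.eval s ^ (B - j) * (A j).eval s * (D.eval s ^ j * (Th^[j] (LL p)).eval s) := by
            ring
        _ = _ := by
            rw [h2, Finset.mul_sum]
            apply Finset.sum_congr rfl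
            intro i _; ring
    rw [Finset.sum_congr rfl h1, Finset.sum_comm]
    apply Finset.sum_eq_zero
    intro i _
    rw [← Finset.mul_sum]
    have h4 := congrArg (fun f : ℝ[X] => f.eval s) (hrel i)
    simp only [eval_finsetSum, eval_mul, eval_pow, eval_zero] at h4
    rw [h4, mul_zero]
  exact (mul_eq_zero.1 hz).resolve_left (pow_ne_zero _ hD0)

end EvenGraphs

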