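import Pool.Agent.Helper54.EvenDefs

open Finset

namespace EvenGraphs

variable {p : ℕ}

/-- sign of `v` in `S` on the edge `e` -/
noncomputable def sgn (S : Finset (Fin p)) (e : Sym2 (Fin p)) : ℝ :=
  ∏ v ∈ S, if v ∈ e then -1 else 1

lemma sgn_mk (S : Finset (Fin p)) {a b : Fin p} (h : a ≠ b) :
    sgn S s(a, b) = (if a ∈ S then -1 else 1) * (if b ∈ S then -1 else 1) := by
  classical
  unfold sgn
  have h1 : ∀ v : Fin p, (if v ∈ s(a, b) then (-1 : ℝ) else 1) =
      (if v = a then -1 else 1) * (if v = b then -1 else 1) := by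
    intro v
    by_cases h1 : v = a
    · subst h1; simp [h]
    · simp [h1, Sym2.mem_iff]
  rw [Finset.prod_congr rfl fun v _ => h1 v, Finset.prod_mul_distrib, Finset.prod_ite_eq',
    Finset.prod_ite_eq']

open Classical in
lemma neg_one_pow_degree (G : SimpleGraph (Fin p)) (v : Fin p) :
    (-1 : ℝ) ^ G.degree v = ∏ e ∈ G.edgeFinset, if v ∈ e then -1 else 1 := by
  rw [← SimpleGraph.card_incidenceFinset_eq_degree, SimpleGraph.incidenceFinset_eq_filter,
    Finset.prod_ite]
  simp

open Classical in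
lemma prod_sgn (G : SimpleGraph (Fin p)) (S : Finset (Fin p)) :
    ∏ v ∈ S, (-1 : ℝ) ^ G.degree v = ∏ e ∈ G.edgeFinset, sgn S e := by
  unfold sgn
  rw [Finset.prod_comm]
  exact Finset.prod_congr rfl fun v _ => neg_one_pow_degree G v

open Classical in
lemma sum_graphs (F : Finset (Sym2 (Fin p)) → ℝ) :
    ∑ G : SimpleGraph (Fin p), F G.edgeFinset =
      ∑ A ∈ (⊤ : SimpleGraph (Fin p)).edgeFinset.powerset, F A := by
  refine Finset.sum_bij' (fun (G : SimpleGraph (Fin p)) _ => G.edgeFinset)
    (fun (A : Finset (Sym2 (Fin p))) _ => SimpleGraph.fromEdgeSet (A : Set (Sym2 (Fin p))))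
    ?_ ?_ ?_ ?_ ?_
  · intro G _
    rw [Finset.mem_powerset]
    exact SimpleGraph.edgeFinset_mono le_top
  · intro A _; exact Finset.mem_univ _
  · intro G _
    simp
  · intro A hA
    rw [Finset.mem_powerset] at hA
    ext e
    constructor
    · intro h
      have h := (@Set.mem_toFinset _ _ (_) _).1 h
      rw [SimpleGraph.edgeSet_fromEdgeSet] at h
      exact h.1
    · intro h
      apply (@Set.mem_toFinset _ _ (_) _).2
      rw [SimpleGraph.edgeSet_fromEdgeSet]
      refine ⟨h, ?_⟩
      have := hA h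
      rw [SimpleGraph.mem_edgeFinset] at this
      exact SimpleGraph.not_isDiag_of_mem_edgeSet _ this
  · intro G _; rfl

open Classical in
lemma indicator_even (G : SimpleGraph (Fin p)) :
    ∏ v : Fin p, (1 + (-1 : ℝ) ^ G.degree v) = if ∀ v, Even (G.degree v) then 2 ^ p else 0 := by
  split_ifs with h
  · rw [Finset.prod_congr rfl fun v _ => by rw [(h v).neg_one_pow]]
    norm_num
  · push Not at h
    obtain ⟨v, hv⟩ := h
    apply Finset.prod_eq_zero (Finset.mem_univ v)
    rw [(Nat.not_even_iff_odd.1 (by simpa using hv)).neg_one_pow]; ring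

open Classical in
lemma card_cross (S : Finset (Fin p)) :
    (((⊤ : SimpleGraph (Fin p)).edgeFinset.filter fun e => sgn S e = -1).card : ℕ) =
      S.card * (p - S.card) := by
  have h1 : p - S.card = Sᶜ.card := by rw [Finset.card_compl, Fintype.card_fin]
  rw [h1, ← Finset.card_product]
  symm
  apply Finset.card_bij (fun q _ => s(q.1, q.2))
  · rintro ⟨a, b⟩ h
    rw [Finset.mem_product] at h
    obtain ⟨ha, hb⟩ := h
    simp only [Finset.mem_compl] at ha hb
    have hab : a ≠ b := by rintro rfl; exact hb ha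
    rw [Finset.mem_filter, SimpleGraph.mem_edgeFinset, SimpleGraph.mem_edgeSet, sgn_mk _ hab]
    simp [ha, hb, hab]
  · rintro ⟨a, b⟩ h ⟨c, d⟩ h' heq
    rw [Finset.mem_product] at h h'
    simp only [Finset.mem_compl] at h h'
    rw [Sym2.eq_iff] at heq
    rcases heq with ⟨h1, h2⟩ | ⟨h1, h2⟩
    · simp only at h1 h2; rw [h1, h2]
    · simp only at h1 h2
      exact absurd (h1 ▸ h.1) h'.2
  · intro e he
    rw [Finset.mem_filter, SimpleGraph.mem_edgeFinset] at he
    obtain ⟨he1, he2⟩ := he
    induction e using Sym2.ind with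
    | _ a b =>
      rw [SimpleGraph.mem_edgeSet, SimpleGraph.top_adj] at he1
      rw [sgn_mk _ he1] at he2
      by_cases ha : a ∈ S
      · by_cases hb : b ∈ S
        · simp [ha, hb] at he2; norm_num at he2
        · exact ⟨(a, b), by simp [ha, hb], rfl⟩
      · by_cases hb : b ∈ S
        · exact ⟨(b, a), by simp [ha, hb], Sym2.eq_swap⟩
        · simp [ha, hb] at he2; norm_num at he2

lemma sgn_cases (S : Finset (Fin p)) {e : Sym2 (Fin p)} : sgn S e = 1 ∨ sgn S e = -1 := by
  classical
  unfold sgn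
  induction S using Finset.induction_on with
  | empty => simp
  | insert a S ha ih =>
    rw [Finset.prod_insert ha]
    split_ifs <;> rcases ih with h | h <;> rw [h] <;> simp

open Classical in
lemma prod_top (S : Finset (Fin p)) (x : ℝ) :
    ∏ e ∈ (⊤ : SimpleGraph (Fin p)).edgeFinset, (1 + x * sgn S e) =
      (1 + x) ^ (p.choose 2 - S.card * (p - S.card)) * (1 - x) ^ (S.card * (p - S.card)) := by
  have h1 : ∀ e ∈ (⊤ : SimpleGraph (Fin p)).edgeFinset,
      (1 + x * sgn S e) = if sgn S e = -1 then (1 - x) else (1 + x) := by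
    intro e _
    rcases sgn_cases S (e := e) with h | h
    · rw [h]; norm_num
    · rw [h]; simp; ring
  rw [Finset.prod_congr rfl h1, Finset.prod_ite, Finset.prod_const, Finset.prod_const, card_cross,
    mul_comm]
  congr 2
  have h2 := Finset.card_filter_add_card_filter_not (s := (⊤ : SimpleGraph (Fin p)).edgeFinset)
    (fun e => sgn S e = -1)
  rw [card_cross] at h2
  have h3 : (⊤ : SimpleGraph (Fin p)).edgeFinset.card = p.choose 2 := by
    rw [SimpleGraph.card_edgeFinset_top_eq_card_choose_two, Fintype.card_fin]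
  omega

/-- The explicit formula for the identity permutation. -/
theorem W_one (x : ℝ) : (2 : ℝ) ^ p * W (1 : Equiv.Perm (Fin p)) x =
    ∑ k ∈ range (p + 1), (p.choose k : ℝ) *
      ((1 + x) ^ (p.choose 2 - k * (p - k)) * (1 - x) ^ (k * (p - k))) := by
  classical
  unfold W
  have h1 : ∀ G : SimpleGraph (Fin p), ((∀ v, Even (G.degree v)) ∧
      ∀ u v, G.Adj ((1 : Equiv.Perm (Fin p)) u) ((1 : Equiv.Perm (Fin p)) v) ↔ G.Adj u v) ↔
      ∀ v, Even (G.degree v) := by
    intro G; simp
  have h2 : (2 : ℝ) ^ p * ∑ G ∈ (Finset.univ : Finset (SimpleGraph (Fin p))).filter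
      (fun G => (∀ v, Even (G.degree v)) ∧
      ∀ u v, G.Adj ((1 : Equiv.Perm (Fin p)) u) ((1 : Equiv.Perm (Fin p)) v) ↔ G.Adj u v),
      x ^ G.edgeFinset.card =
      ∑ G : SimpleGraph (Fin p), (∏ v : Fin p, (1 + (-1 : ℝ) ^ G.degree v)) *
        x ^ G.edgeFinset.card := by
    rw [Finset.mul_sum, Finset.sum_filter]
    apply Finset.sum_congr rfl
    intro G _
    rw [indicator_even]
    simp only [h1]
    split_ifs <;> simp
  rw [h2]
  have h3 : ∀ G : SimpleGraph (Fin p), (∏ v : Fin p, (1 + (-1 : ℝ) ^ G.degree v)) *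
      x ^ G.edgeFinset.card = ∑ S : Finset (Fin p), ∏ e ∈ G.edgeFinset, (x * sgn S e) := by
    intro G
    rw [Finset.prod_one_add, Finset.powerset_univ, Finset.sum_mul]
    apply Finset.sum_congr rfl
    intro S _
    rw [prod_sgn, Finset.prod_mul_distrib, Finset.prod_const, mul_comm]
  rw [Finset.sum_congr rfl fun G _ => h3 G, Finset.sum_comm]
  have h4 : ∀ S : Finset (Fin p), ∑ G : SimpleGraph (Fin p), ∏ e ∈ G.edgeFinset, (x * sgn S e) =
      (1 + x) ^ (p.choose 2 - S.card * (p - S.card)) * (1 - x) ^ (S.card * (p - S.card)) := by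
    intro S
    rw [sum_graphs (fun A => ∏ e ∈ A, (x * sgn S e)), ← Finset.prod_one_add, prod_top]
  rw [Finset.sum_congr rfl fun S _ => h4 S]
  have h5 := Finset.sum_powerset_apply_card (x := (Finset.univ : Finset (Fin p)))
    (fun k => (1 + x) ^ (p.choose 2 - k * (p - k)) * (1 - x) ^ (k * (p - k)))
  rw [Finset.powerset_univ, Finset.card_univ, Fintype.card_fin] at h5
  rw [h5]
  apply Finset.sum_congr rfl
  intro k _
  rw [nsmul_eq_mul]

end EvenGraphs
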