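import Pool.Agent.Helper54.EvenFinal

open Finset Polynomial

namespace EvenGraphs

lemma crossing_le {p k : ℕ} (hk : k ≤ p) : k * (p - k) ≤ p.choose 2 := by
  obtain ⟨m, rfl⟩ : ∃ m, p = k + m := ⟨p - k, by omega⟩
  have e1 : k + m - k = m := by omega
  rw [e1, Nat.choose_two_right, Nat.le_div_iff_mul_le two_pos]
  rcases Nat.eq_zero_or_pos k with h | h
  · subst h; simp
  rcases Nat.eq_zero_or_pos m with h' | h'
  · subst h'; simp
  obtain ⟨a, rfl⟩ : ∃ a, k = a + 1 := ⟨k - 1, by omega⟩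
  obtain ⟨b, rfl⟩ : ∃ b, m = b + 1 := ⟨m - 1, by omega⟩
  have e2 : a + 1 + (b + 1) - 1 = a + b + 1 := by omega
  rw [e2]
  nlinarith [Nat.zero_le (a * b), Nat.zero_le (a * a), Nat.zero_le (b * b)]

lemma W_subst (p : ℕ) {s : ℝ} (hs : s ∈ Set.Ioo (0 : ℝ) 1) :
    (1 + s) ^ p.choose 2 * ((2 : ℝ) ^ p * W (1 : Equiv.Perm (Fin p)) ((1 - s) / (1 + s))) =
      2 ^ p.choose 2 * (LL p).eval s := by
  have hs1 : (1 : ℝ) + s ≠ 0 := by have := hs.1; positivity
  rw [W_one, LL, eval_finsetSum, Finset.mul_sum, Finset.mul_sum]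
  apply Finset.sum_congr rfl
  intro k hk
  rw [Finset.mem_range] at hk
  have hle := crossing_le (by omega : k ≤ p)
  obtain ⟨m, hm⟩ : ∃ m, p.choose 2 = m + k * (p - k) := ⟨p.choose 2 - k * (p - k), by omega⟩
  have e1 : 1 + (1 - s) / (1 + s) = 2 / (1 + s) := by field_simp; ring
  have e2 : 1 - (1 - s) / (1 + s) = 2 * s / (1 + s) := by field_simp; ring
  rw [e1, e2, hm]
  have e3 : m + k * (p - k) - k * (p - k) = m := by omega
  rw [e3]
  simp only [eval_mul, eval_C, eval_pow, eval_X]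
  rw [div_pow, div_pow, mul_pow, pow_add, pow_add]
  field_simp

lemma pair_subst {k : ℕ} (hk : 1 ≤ k) (a b : ℝ) {s : ℝ} (hs : s ∈ Set.Ioo (0 : ℝ) 1) :
    (1 + ((1 - s) / (1 + s)) ^ k) ^ a * (1 - ((1 - s) / (1 + s)) ^ k) ^ b =
      ((PA k).eval s ^ a * (PB k).eval s ^ b) * (1 + s) ^ (-(k * (a + b))) := by
  have hs1 : (0 : ℝ) < 1 + s := by have := hs.1; positivity
  have hA := PA_pos k hs
  have hB := PB_pos hk hs
  have e1 : 1 + ((1 - s) / (1 + s)) ^ k = (PA k).eval s / (1 + s) ^ k := by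
    simp only [PA, eval_add, eval_pow, eval_one, eval_X, eval_sub]
    rw [div_pow]; field_simp
  have e2 : 1 - ((1 - s) / (1 + s)) ^ k = (PB k).eval s / (1 + s) ^ k := by
    simp only [PB, eval_add, eval_pow, eval_one, eval_X, eval_sub]
    rw [div_pow]; field_simp
  rw [e1, e2, Real.div_rpow hA.le (by positivity), Real.div_rpow hB.le (by positivity),
    ← Real.rpow_natCast (1 + s) k, ← Real.rpow_mul hs1.le, ← Real.rpow_mul hs1.le,
    Real.rpow_neg hs1.le, mul_add, Real.rpow_add hs1]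
  have h1 : (1 + s) ^ ((k : ℝ) * a) ≠ 0 := (Real.rpow_pos_of_pos hs1 _).ne'
  have h2 : (1 + s) ^ ((k : ℝ) * b) ≠ 0 := (Real.rpow_pos_of_pos hs1 _).ne'
  field_simp

lemma DT_ne_zero (T : Finset ℕ) (hT : ∀ k ∈ T, 1 ≤ k) : DT T ≠ 0 := by
  intro h
  have h1 := congrArg (fun f : ℝ[X] => f.eval (1 / 2 : ℝ)) h
  simp only [DT, eval_prod, eval_mul, eval_zero] at h1
  have hs : (1 / 2 : ℝ) ∈ Set.Ioo (0 : ℝ) 1 := ⟨by norm_num, by norm_num⟩
  have h2 : 0 < ∏ k ∈ T, ((PA k).eval (1 / 2 : ℝ) * (PB k).eval (1 / 2 : ℝ)) :=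
    Finset.prod_pos fun k hk => mul_pos (PA_pos k hs) (PB_pos (hT k hk) hs)
  linarith

theorem main (T : Finset ℕ) (hT : ∀ k ∈ T, 1 ≤ k) (B p : ℕ)
    (hp : B ^ 2 * (1 + 2 * ∑ k ∈ T, k) + 2 * B + 2 ≤ p)
    (c : Fin B → ℝ) (a b : Fin B → ℕ → ℝ)
    (h : ∀ x ∈ Set.Ioo (0 : ℝ) 1, W (1 : Equiv.Perm (Fin p)) x =
      ∑ i, c i * ∏ k ∈ T, ((1 + x ^ k) ^ (a i k) * (1 - x ^ k) ^ (b i k))) : False := by
  classical
  have hlin : ∀ s ∈ Set.Ioo (0 : ℝ) 1, 0 < ((1 : ℝ[X]) + X).eval s := by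
    intro s hs
    simp only [eval_add, eval_one, eval_X]
    linarith [hs.1]
  choose q hq hLD using fun i => LD_prod T hT (a i) (b i)
  let ex : Fin B → ℝ := fun i => (p.choose 2 : ℝ) + ∑ k ∈ T, -(k * (a i k + b i k))
  have hnat : ((1 : ℝ[X]) + X).natDegree ≤ 1 := by
    refine (natDegree_add_le _ _).trans ?_
    simp
  have hdt := natDegree_DT T
  have hsum : ∑ k ∈ T, 2 * k = 2 * ∑ k ∈ T, k := by rw [Finset.mul_sum]
  refine no_go (p := p) (B := B) (δ := 1 + 2 * ∑ k ∈ T, k) hp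
    (D := (1 + X) * DT T) ?_ ?_
    (q := fun i => C (ex i) * (X * derivative (1 + X)) * DT T + (1 + X) * q i) ?_
    (v := fun i s => ((1 : ℝ[X]) + X).eval s ^ ex i *
      ∏ k ∈ T, ((PA k).eval s ^ a i k * (PB k).eval s ^ b i k)) ?_
    (fun i => c i * (2 ^ p / 2 ^ p.choose 2)) ?_
  · apply mul_ne_zero _ (DT_ne_zero T hT)
    intro h0
    have := hlin (1 / 2) ⟨by norm_num, by norm_num⟩
    rw [h0] at this
    simp at this
  · refine natDegree_mul_le.trans ?_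
    omega
  · intro i
    have h1 := natDegree_X_mul_derivative_le ((1 : ℝ[X]) + X)
    have h2 := natDegree_C_mul_le (ex i) (X * derivative ((1 : ℝ[X]) + X))
    have h3 := hq i
    refine (natDegree_add_le _ _).trans (max_le ?_ ?_)
    · refine natDegree_mul_le.trans ?_; omega
    · refine natDegree_mul_le.trans ?_; omega
  · intro i
    exact (LD.rpow hlin (ex i)).mul (hLD i)
  · intro s hs
    have hs1 : (0 : ℝ) < 1 + s := by have := hs.1; positivity
    have hx : (1 - s) / (1 + s) ∈ Set.Ioo (0 : ℝ) 1 := by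
      constructor
      · apply div_pos _ hs1; linarith [hs.2]
      · rw [div_lt_one hs1]; linarith [hs.1]
    have h1 := W_subst p hs
    rw [h _ hx] at h1
    have h2 : (LL p).eval s = (2 ^ p / 2 ^ p.choose 2) * ((1 + s) ^ p.choose 2 *
        ∑ i, c i * ∏ k ∈ T, ((1 + ((1 - s) / (1 + s)) ^ k) ^ (a i k) *
          (1 - ((1 - s) / (1 + s)) ^ k) ^ (b i k))) := by
      have h3 : (2 : ℝ) ^ p.choose 2 ≠ 0 := by positivity
      rw [div_mul_eq_mul_div, eq_div_iff h3]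
      linarith
    rw [h2, Finset.mul_sum, Finset.mul_sum]
    apply Finset.sum_congr rfl
    intro i _
    have h4 : ∏ k ∈ T, ((1 + ((1 - s) / (1 + s)) ^ k) ^ (a i k) *
          (1 - ((1 - s) / (1 + s)) ^ k) ^ (b i k)) =
        (∏ k ∈ T, ((PA k).eval s ^ a i k * (PB k).eval s ^ b i k)) *
          (1 + s) ^ (∑ k ∈ T, -((k : ℝ) * (a i k + b i k))) := by
      rw [Real.rpow_sum_of_pos hs1, ← Finset.prod_mul_distrib]
      apply Finset.prod_congr rfl
      intro k hk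
      exact pair_subst (hT k hk) _ _ hs
    rw [h4]
    have h5 : ((1 : ℝ[X]) + X).eval s ^ ex i = (1 + s) ^ p.choose 2 *
        (1 + s) ^ (∑ k ∈ T, -((k : ℝ) * (a i k + b i k))) := by
      simp only [eval_add, eval_one, eval_X, ex]
      rw [Real.rpow_add hs1, Real.rpow_natCast]
    simp only [h5]
    ring

end EvenGraphs
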