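import Pool.Agent.Helper54.EvenFormula

open Finset Polynomial

namespace EvenGraphs

/-- `v` has logarithmic derivative with denominator `D`: `s D v' = q v` on `(0,1)` -/
def LD (D q : ℝ[X]) (v : ℝ → ℝ) : Prop :=
  ∀ s ∈ Set.Ioo (0 : ℝ) 1, ∃ v', HasDerivAt v v' s ∧ s * D.eval s * v' = q.eval s * v s

lemma LD.mul {D₁ q₁ D₂ q₂ : ℝ[X]} {v₁ v₂ : ℝ → ℝ} (h₁ : LD D₁ q₁ v₁) (h₂ : LD D₂ q₂ v₂) :
    LD (D₁ * D₂) (q₁ * D₂ + D₁ * q₂) (fun s => v₁ s * v₂ s) := by
  intro s hs
  obtain ⟨a, ha, ha'⟩ := h₁ s hs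
  obtain ⟨b, hb, hb'⟩ := h₂ s hs
  refine ⟨_, ha.mul hb, ?_⟩
  simp only [eval_mul, eval_add]
  linear_combination (D₂.eval s * v₂ s) * ha' + (D₁.eval s * v₁ s) * hb'

lemma LD.rpow {f : ℝ[X]} (hf : ∀ s ∈ Set.Ioo (0 : ℝ) 1, 0 < f.eval s) (α : ℝ) :
    LD f (C α * (X * derivative f)) (fun s => f.eval s ^ α) := by
  intro s hs
  have hpos := hf s hs
  refine ⟨_, (f.hasDerivAt s).rpow_const (Or.inl hpos.ne'), ?_⟩
  simp only [eval_mul, eval_C, eval_X]
  have : f.eval s ^ (α - 1) * f.eval s = f.eval s ^ α := by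
    rw [← Real.rpow_add_one hpos.ne']; congr 1; ring
  linear_combination (s * (derivative f).eval s * α) * this

lemma natDegree_X_mul_derivative_le (f : ℝ[X]) : (X * derivative f).natDegree ≤ f.natDegree := by
  rcases Nat.eq_zero_or_pos f.natDegree with h | h
  · rw [natDegree_eq_zero.1 h |>.choose_spec.symm]
    simp
  · refine natDegree_mul_le.trans ?_
    rw [natDegree_X]
    have := natDegree_derivative_lt (p := f) (by omega)
    omega

/-- `(1+X)^k + (1-X)^k` -/
noncomputable def PA (k : ℕ) : ℝ[X] := (1 + X) ^ k + (1 - X) ^ k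

/-- `(1+X)^k - (1-X)^k` -/
noncomputable def PB (k : ℕ) : ℝ[X] := (1 + X) ^ k - (1 - X) ^ k

lemma natDegree_lin1 (k : ℕ) : (((1 : ℝ[X]) + X) ^ k).natDegree ≤ k := by
  refine natDegree_pow_le.trans ?_
  have : ((1 : ℝ[X]) + X).natDegree ≤ 1 := by
    refine (natDegree_add_le _ _).trans ?_
    simp
  calc k * _ ≤ k * 1 := Nat.mul_le_mul_left _ this
    _ = k := by ring

lemma natDegree_lin2 (k : ℕ) : (((1 : ℝ[X]) - X) ^ k).natDegree ≤ k := by
  refine natDegree_pow_le.trans ?_
  have : ((1 : ℝ[X]) - X).natDegree ≤ 1 := by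
    refine (natDegree_sub_le _ _).trans ?_
    simp
  calc k * _ ≤ k * 1 := Nat.mul_le_mul_left _ this
    _ = k := by ring

lemma natDegree_PA (k : ℕ) : (PA k).natDegree ≤ k :=
  (natDegree_add_le _ _).trans (max_le (natDegree_lin1 k) (natDegree_lin2 k))

lemma natDegree_PB (k : ℕ) : (PB k).natDegree ≤ k :=
  (natDegree_sub_le _ _).trans (max_le (natDegree_lin1 k) (natDegree_lin2 k))

lemma PA_pos (k : ℕ) {s : ℝ} (hs : s ∈ Set.Ioo (0 : ℝ) 1) : 0 < (PA k).eval s := by
  simp only [PA, eval_add, eval_pow, eval_one, eval_X, eval_sub]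
  have h1 : 0 < 1 + s := by linarith [hs.1]
  have h2 : 0 < 1 - s := by linarith [hs.2]
  positivity

lemma PB_pos {k : ℕ} (hk : 1 ≤ k) {s : ℝ} (hs : s ∈ Set.Ioo (0 : ℝ) 1) : 0 < (PB k).eval s := by
  simp only [PB, eval_add, eval_pow, eval_one, eval_X, eval_sub]
  rw [sub_pos]
  apply pow_lt_pow_left₀ (by linarith [hs.1]) (by linarith [hs.2]) (by omega)

/-- the common denominator -/
noncomputable def DT (T : Finset ℕ) : ℝ[X] := ∏ k ∈ T, (PA k * PB k)

lemma natDegree_DT (T : Finset ℕ) : (DT T).natDegree ≤ ∑ k ∈ T, 2 * k := by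
  unfold DT
  refine (natDegree_prod_le _ _).trans ?_
  apply Finset.sum_le_sum
  intro k _
  refine natDegree_mul_le.trans ?_
  have := natDegree_PA k
  have := natDegree_PB k
  omega

lemma LD_pair {k : ℕ} (hk : 1 ≤ k) (a b : ℝ) : ∃ q : ℝ[X], q.natDegree ≤ 2 * k ∧
    LD (PA k * PB k) q (fun s => (PA k).eval s ^ a * (PB k).eval s ^ b) := by
  refine ⟨_, ?_, (LD.rpow (fun s hs => PA_pos k hs) a).mul (LD.rpow (fun s hs => PB_pos hk hs) b)⟩
  have h1 := natDegree_PA k
  have h2 := natDegree_PB k
  have h3 := natDegree_X_mul_derivative_le (PA k)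
  have h4 := natDegree_X_mul_derivative_le (PB k)
  have h5 := natDegree_C_mul_le a (X * derivative (PA k))
  have h6 := natDegree_C_mul_le b (X * derivative (PB k))
  refine (natDegree_add_le _ _).trans (max_le ?_ ?_)
  · refine natDegree_mul_le.trans ?_; omega
  · refine natDegree_mul_le.trans ?_; omega

lemma LD_prod (T : Finset ℕ) (hT : ∀ k ∈ T, 1 ≤ k) (a b : ℕ → ℝ) :
    ∃ q : ℝ[X], q.natDegree ≤ ∑ k ∈ T, 2 * k ∧
    LD (DT T) q (fun s => ∏ k ∈ T, ((PA k).eval s ^ a k * (PB k).eval s ^ b k)) := by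
  classical
  induction T using Finset.induction_on with
  | empty =>
    refine ⟨0, by simp, ?_⟩
    intro s hs
    refine ⟨0, ?_, by simp⟩
    simpa using hasDerivAt_const s (1 : ℝ)
  | insert k T hk ih =>
    obtain ⟨q, hq, hLD⟩ := ih (fun l hl => hT l (Finset.mem_insert_of_mem hl))
    obtain ⟨q', hq', hLD'⟩ := LD_pair (hT k (Finset.mem_insert_self k T)) (a k) (b k)
    have h := hLD'.mul hLD
    refine ⟨q' * DT T + PA k * PB k * q, ?_, ?_⟩
    rotate_left
    · have e1 : DT (insert k T) = (PA k * PB k) * DT T := by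
        unfold DT; rw [Finset.prod_insert hk]
      have e2 : (fun s => ∏ l ∈ insert k T, ((PA l).eval s ^ a l * (PB l).eval s ^ b l)) =
          (fun s => ((PA k).eval s ^ a k * (PB k).eval s ^ b k) *
            ∏ l ∈ T, ((PA l).eval s ^ a l * (PB l).eval s ^ b l)) := by
        funext s; rw [Finset.prod_insert hk]
      rw [e1, e2]
      exact h
    · rw [Finset.sum_insert hk]
      have h1 := natDegree_DT T
      have h2 : (PA k * PB k).natDegree ≤ 2 * k := by
        refine natDegree_mul_le.trans ?_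
        have := natDegree_PA k
        have := natDegree_PB k
        omega
      refine (natDegree_add_le _ _).trans (max_le ?_ ?_)
      · refine natDegree_mul_le.trans ?_; omega
      · refine natDegree_mul_le.trans ?_; omega

/-- The recursively defined polynomials with `D^j θ^j v = P_j v`. -/
noncomputable def PP (D q : ℝ[X]) : ℕ → ℝ[X]
  | 0 => 1
  | j + 1 => D * (X * derivative (PP D q j)) + q * PP D q j -
      C (j : ℝ) * (X * derivative D) * PP D q j

lemma natDegree_PP {D q : ℝ[X]} {δ : ℕ} (hD : D.natDegree ≤ δ) (hq : q.natDegree ≤ δ) (j : ℕ) :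
    (PP D q j).natDegree ≤ j * δ := by
  induction j with
  | zero => simp [PP]
  | succ j ih =>
    have h1 := natDegree_X_mul_derivative_le (PP D q j)
    have h2 := natDegree_X_mul_derivative_le D
    have h3 := natDegree_C_mul_le (j : ℝ) (X * derivative D)
    have hs : (j + 1) * δ = j * δ + δ := by ring
    rw [hs]
    simp only [PP]
    refine (natDegree_sub_le _ _).trans (max_le ((natDegree_add_le _ _).trans (max_le ?_ ?_)) ?_)
    · refine natDegree_mul_le.trans ?_; omega
    · refine natDegree_mul_le.trans ?_; omega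
    · refine natDegree_mul_le.trans ?_; omega

/-- Euler operator -/
noncomputable def Th (f : ℝ[X]) : ℝ[X] := X * derivative f

lemma Th_iter_monomial (n j : ℕ) (c : ℝ) : Th^[j] (C c * X ^ n) = C (c * (n : ℝ) ^ j) * X ^ n := by
  induction j with
  | zero => simp
  | succ j ih =>
    rw [Function.iterate_succ_apply', ih]
    unfold Th
    rw [derivative_C_mul, derivative_X_pow]
    rcases Nat.eq_zero_or_pos n with h | h
    · subst h; simp
    · have : (X : ℝ[X]) ^ n = X * X ^ (n - 1) := by rw [← pow_succ']; congr 1; omega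
      rw [this, pow_succ]
      simp only [map_mul, map_pow, map_natCast]
      ring

lemma Th_add (f g : ℝ[X]) : Th (f + g) = Th f + Th g := by
  unfold Th; rw [derivative_add, mul_add]

lemma Th_iter_add (j : ℕ) (f g : ℝ[X]) : Th^[j] (f + g) = Th^[j] f + Th^[j] g := by
  induction j with
  | zero => rfl
  | succ j ih => rw [Function.iterate_succ_apply', ih, Th_add, Function.iterate_succ_apply',
      Function.iterate_succ_apply']

lemma Th_iter_sum {ι : Type*} (J : Finset ι) (f : ι → ℝ[X]) (j : ℕ) :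
    Th^[j] (∑ i ∈ J, f i) = ∑ i ∈ J, Th^[j] (f i) := by
  classical
  induction J using Finset.induction_on with
  | empty =>
    simp only [Finset.sum_empty]
    induction j with
    | zero => rfl
    | succ j ih => rw [Function.iterate_succ_apply', ih]; simp [Th]
  | insert i J hi ih => rw [Finset.sum_insert hi, Finset.sum_insert hi, Th_iter_add, ih]

lemma theta_rel {B : ℕ} {L D : ℝ[X]} {q : Fin B → ℝ[X]} {v : Fin B → ℝ → ℝ} {c : Fin B → ℝ}
    (hLD : ∀ i, LD D (q i) (v i))
    (hL : ∀ s ∈ Set.Ioo (0 : ℝ) 1, L.eval s = ∑ i, c i * v i s) (j : ℕ) :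
    ∀ s ∈ Set.Ioo (0 : ℝ) 1, D.eval s ^ j * (Th^[j] L).eval s =
      ∑ i, c i * ((PP D (q i) j).eval s * v i s) := by
  induction j with
  | zero =>
    intro s hs
    simpa [PP] using hL s hs
  | succ j ih =>
    intro s hs
    choose v' hv' hv'' using fun i => hLD i s hs
    -- derivatives of both sides
    have h1 : HasDerivAt (fun t => D.eval t ^ j * (Th^[j] L).eval t)
        ((j : ℝ) * D.eval s ^ (j - 1) * (derivative D).eval s * (Th^[j] L).eval s +
          D.eval s ^ j * (derivative (Th^[j] L)).eval s) s :=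
      ((D.hasDerivAt s).fun_pow j).fun_mul ((Th^[j] L).hasDerivAt s)
    have h2 : HasDerivAt (fun t => ∑ i, c i * ((PP D (q i) j).eval t * v i t))
        (∑ i, c i * ((derivative (PP D (q i) j)).eval s * v i s +
          (PP D (q i) j).eval s * v' i)) s := by
      apply HasDerivAt.fun_sum
      intro i _
      exact (((PP D (q i) j).hasDerivAt s).fun_mul (hv' i)).const_mul (c i)
    have hev : (fun t => D.eval t ^ j * (Th^[j] L).eval t) =ᶠ[nhds s]
        (fun t => ∑ i, c i * ((PP D (q i) j).eval t * v i t)) := by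
      filter_upwards [isOpen_Ioo.mem_nhds hs] with t ht
      exact ih t ht
    have h3 := h1.unique (h2.congr_of_eventuallyEq hev)
    have h4 := ih s hs
    rw [Function.iterate_succ_apply']
    have h5 : (Th (Th^[j] L)).eval s = s * (derivative (Th^[j] L)).eval s := by
      simp [Th]
    rw [h5]
    have h6 : ∀ i, (PP D (q i) (j + 1)).eval s * v i s =
        s * D.eval s * ((derivative (PP D (q i) j)).eval s * v i s +
          (PP D (q i) j).eval s * v' i) -
        (j : ℝ) * (s * (derivative D).eval s) * ((PP D (q i) j).eval s * v i s) := by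
      intro i
      simp only [PP, eval_sub, eval_add, eval_mul, eval_X, eval_C]
      linear_combination (-(PP D (q i) j).eval s) * hv'' i
    have h7 : ∑ i, c i * ((PP D (q i) (j + 1)).eval s * v i s) =
        s * D.eval s * (∑ i, c i * ((derivative (PP D (q i) j)).eval s * v i s +
          (PP D (q i) j).eval s * v' i)) -
        (j : ℝ) * (s * (derivative D).eval s) *
          (∑ i, c i * ((PP D (q i) j).eval s * v i s)) := by
      rw [Finset.mul_sum, Finset.mul_sum, ← Finset.sum_sub_distrib]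
      apply Finset.sum_congr rfl
      intro i _
      rw [h6 i]; ring
    rw [h7, ← h3, ← h4]
    rcases Nat.eq_zero_or_pos j with h0 | h0
    · subst h0; simp; ring
    · have h8 : D.eval s ^ j = D.eval s ^ (j - 1) * D.eval s := by
        rw [← pow_succ]; congr 1; omega
      rw [pow_succ, h8]; ring

end EvenGraphs
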